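import Pool.Agent.Lib.MP_cdaa24_an.Ops

/-!
The block maps and the jointly bounded bilinear map on the direct sum.
-/

open Finset
open scoped ComplexConjugate CStarMatrix BoundedContinuousFunction ENNReal

namespace Pool.Agent.Lib.MP_cdaa24_an

/-- A prime number which is at least `k + 5`. -/
noncomputable def P (k : ℕ) : ℕ := (Nat.exists_infinite_primes (k + 5)).choose

lemma le_P (k : ℕ) : k + 5 ≤ P k := (Nat.exists_infinite_primes (k + 5)).choose_spec.1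

instance fact_P (k : ℕ) : Fact (P k).Prime :=
  ⟨(Nat.exists_infinite_primes (k + 5)).choose_spec.2⟩

lemma natCast_ne_zero_of_lt {p n : ℕ} (hn : 0 < n) (hnp : n < p) : ((n : ℕ) : ZMod p) ≠ 0 := by
  rw [Ne, ZMod.natCast_eq_zero_iff]
  intro h
  exact absurd (Nat.le_of_dvd hn h) (not_le.2 hnp)

lemma two_ne_zero_P (k : ℕ) : (2 : ZMod (P k)) ≠ 0 := by
  have := natCast_ne_zero_of_lt (p := P k) (n := 2) (by norm_num) (by have := le_P k; omega)
  exact_mod_cast this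

lemma three_ne_zero_P (k : ℕ) : (3 : ZMod (P k)) ≠ 0 := by
  have := natCast_ne_zero_of_lt (p := P k) (n := 3) (by norm_num) (by have := le_P k; omega)
  exact_mod_cast this

lemma six_ne_zero_P (k : ℕ) : (6 : ZMod (P k)) ≠ 0 := by
  have h : (6 : ZMod (P k)) = 2 * 3 := by norm_num
  rw [h]
  exact mul_ne_zero (two_ne_zero_P k) (three_ne_zero_P k)

section Blk

variable (p : ℕ) [hp : Fact p.Prime]

/-- The normalising factor `p ^ (-1/4)`. -/
noncomputable def lam : ℝ := √((√p)⁻¹)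

omit hp in
lemma lam_nonneg : 0 ≤ lam p := Real.sqrt_nonneg _

omit hp in
lemma lam_sq : lam p ^ 2 = (√p)⁻¹ := Real.sq_sqrt (by positivity)

lemma one_le_sqrt : 1 ≤ √(p : ℝ) := by
  rw [Real.one_le_sqrt]
  exact_mod_cast hp.out.one_lt.le

lemma lam_sq_mul_le : lam p ^ 2 * (1 + √p) ≤ 2 := by
  have h1 := one_le_sqrt p
  have h0 : (0 : ℝ) < √p := by linarith
  rw [lam_sq, inv_mul_le_iff₀ h0]
  linarith

variable {p}

/-- The coefficients of the block map. -/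
noncomputable def cf (x y : ℕ →ᵇ ℂ) (s : ZMod p) : ℂ :=
  ∑ i, th i (s - i) * (hat i x * hat (s - i) y)

/-- The block functional. -/
noncomputable def fn (x y : ℕ →ᵇ ℂ) (ξ : EuclideanSpace ℂ (ZMod p)) : ℂ :=
  ∑ s, cf x y s * ξ s

lemma fn_add (x y : ℕ →ᵇ ℂ) (ξ η : EuclideanSpace ℂ (ZMod p)) :
    fn x y (ξ + η) = fn x y ξ + fn x y η := by
  unfold fn
  rw [← Finset.sum_add_distrib]
  refine Finset.sum_congr rfl fun i _ => ?_
  rw [PiLp.add_apply]; ring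

lemma fn_smul (x y : ℕ →ᵇ ℂ) (c : ℂ) (ξ : EuclideanSpace ℂ (ZMod p)) :
    fn x y (c • ξ) = c * fn x y ξ := by
  unfold fn
  rw [Finset.mul_sum]
  refine Finset.sum_congr rfl fun i _ => ?_
  rw [PiLp.smul_apply, smul_eq_mul]; ring

lemma cf_add_left (x x' y : ℕ →ᵇ ℂ) (s : ZMod p) : cf (x + x') y s = cf x y s + cf x' y s := by
  unfold cf
  rw [← Finset.sum_add_distrib]
  refine Finset.sum_congr rfl fun i _ => ?_
  rw [map_add]; ring

lemma cf_add_right (x y y' : ℕ →ᵇ ℂ) (s : ZMod p) : cf x (y + y') s = cf x y s + cf x y' s := by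
  unfold cf
  rw [← Finset.sum_add_distrib]
  refine Finset.sum_congr rfl fun i _ => ?_
  rw [map_add]; ring

lemma cf_smul_left (c : ℂ) (x y : ℕ →ᵇ ℂ) (s : ZMod p) : cf (c • x) y s = c * cf x y s := by
  unfold cf
  rw [Finset.mul_sum]
  refine Finset.sum_congr rfl fun i _ => ?_
  rw [map_smul, smul_eq_mul]; ring

lemma cf_smul_right (c : ℂ) (x y : ℕ →ᵇ ℂ) (s : ZMod p) : cf x (c • y) s = c * cf x y s := by
  unfold cf
  rw [Finset.mul_sum]
  refine Finset.sum_congr rfl fun i _ => ?_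
  rw [map_smul, smul_eq_mul]; ring

/-- The block map. -/
noncomputable def blk (x y : ℕ →ᵇ ℂ) :
    EuclideanSpace ℂ (ZMod p) →L[ℂ] EuclideanSpace ℂ (ZMod p) :=
  LinearMap.toContinuousLinearMap
    { toFun := fun ξ => ((lam p : ℂ) * fn x y ξ) • EuclideanSpace.single 0 1
      map_add' := by
        intro ξ η
        rw [← add_smul, ← mul_add, fn_add]
      map_smul' := by
        intro c ξ
        rw [RingHom.id_apply, smul_smul, fn_smul]
        congr 1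
        ring }

lemma blk_apply (x y : ℕ →ᵇ ℂ) (ξ : EuclideanSpace ℂ (ZMod p)) :
    blk x y ξ = ((lam p : ℂ) * fn x y ξ) • EuclideanSpace.single 0 1 := rfl

lemma blk_add_left (x x' y : ℕ →ᵇ ℂ) : blk (p := p) (x + x') y = blk x y + blk x' y := by
  ext1 ξ
  rw [add_apply, blk_apply, blk_apply, blk_apply, ← add_smul, ← mul_add]
  congr 2
  unfold fn
  rw [← Finset.sum_add_distrib]
  refine Finset.sum_congr rfl fun i _ => ?_
  rw [cf_add_left]; ring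

lemma blk_add_right (x y y' : ℕ →ᵇ ℂ) : blk (p := p) x (y + y') = blk x y + blk x y' := by
  ext1 ξ
  rw [add_apply, blk_apply, blk_apply, blk_apply, ← add_smul, ← mul_add]
  congr 2
  unfold fn
  rw [← Finset.sum_add_distrib]
  refine Finset.sum_congr rfl fun i _ => ?_
  rw [cf_add_right]; ring

lemma blk_smul_left (c : ℂ) (x y : ℕ →ᵇ ℂ) : blk (p := p) (c • x) y = c • blk x y := by
  ext1 ξ
  rw [smul_apply, blk_apply, blk_apply, smul_smul]
  congr 1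
  unfold fn
  rw [Finset.mul_sum, Finset.mul_sum, Finset.mul_sum]
  refine Finset.sum_congr rfl fun i _ => ?_
  rw [cf_smul_left]; ring

lemma blk_smul_right (c : ℂ) (x y : ℕ →ᵇ ℂ) : blk (p := p) x (c • y) = c • blk x y := by
  ext1 ξ
  rw [smul_apply, blk_apply, blk_apply, smul_smul]
  congr 1
  unfold fn
  rw [Finset.mul_sum, Finset.mul_sum, Finset.mul_sum]
  refine Finset.sum_congr rfl fun i _ => ?_
  rw [cf_smul_right]; ring

variable [PartialOrder (ℕ →ᵇ ℂ)] [StarOrderedRing (ℕ →ᵇ ℂ)]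

variable {ι κ : Type*} [Fintype ι] [Fintype κ] [DecidableEq ι] [DecidableEq κ]

/-- The jointly bounded estimate for one block. -/
lemma blk_jcb (h6 : (6 : ZMod p) ≠ 0) (a : CStarMatrix ι ι (ℕ →ᵇ ℂ))
    (b : CStarMatrix κ κ (ℕ →ᵇ ℂ)) (x : ι × κ → EuclideanSpace ℂ (ZMod p)) :
    ∑ P : ι × κ, ‖∑ Q : ι × κ, blk (a P.1 Q.1) (b P.2 Q.2) (x Q)‖ ^ 2 ≤
      2 * (‖a‖ ^ 2 * ‖b‖ ^ 2) * ∑ Q : ι × κ, ‖x Q‖ ^ 2 := by
  have h := block_jcb h6 a b (fun s Q => x Q s)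
  have h1 : ∀ P : ι × κ, ‖∑ Q : ι × κ, blk (a P.1 Q.1) (b P.2 Q.2) (x Q)‖ ^ 2 =
      lam p ^ 2 * ‖∑ Q : ι × κ, ∑ s, ∑ i, th i (s - i) *
        (hat i (a P.1 Q.1) * hat (s - i) (b P.2 Q.2)) * x Q s‖ ^ 2 := by
    intro P
    simp_rw [blk_apply]
    rw [← Finset.sum_smul, ← Finset.mul_sum, norm_smul, norm_mul, PiLp.norm_single,
      norm_one, mul_one, mul_pow, Complex.norm_real, Real.norm_eq_abs, sq_abs]
    congr 3
    refine Finset.sum_congr rfl fun Q _ => ?_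
    unfold fn
    refine Finset.sum_congr rfl fun s _ => ?_
    unfold cf
    rw [Finset.sum_mul]
  simp_rw [h1]
  rw [← Finset.mul_sum]
  have h2 : ∑ Q : ι × κ, ∑ s, ‖x Q s‖ ^ 2 = ∑ Q : ι × κ, ‖x Q‖ ^ 2 := by
    refine Finset.sum_congr rfl fun Q _ => ?_
    rw [EuclideanSpace.norm_sq_eq]
  rw [h2] at h
  calc _ ≤ lam p ^ 2 * ((1 + √p) * (‖a‖ ^ 2 * ‖b‖ ^ 2) * ∑ Q : ι × κ, ‖x Q‖ ^ 2) := by
        gcongr
    _ = (lam p ^ 2 * (1 + √p)) * ((‖a‖ ^ 2 * ‖b‖ ^ 2) * ∑ Q : ι × κ, ‖x Q‖ ^ 2) := by ring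
    _ ≤ 2 * ((‖a‖ ^ 2 * ‖b‖ ^ 2) * ∑ Q : ι × κ, ‖x Q‖ ^ 2) := by
        gcongr
        exact lam_sq_mul_le p
    _ = _ := by ring

end Blk

section BlkNorm

variable {p : ℕ} [hp : Fact p.Prime]
variable [PartialOrder (ℕ →ᵇ ℂ)] [StarOrderedRing (ℕ →ᵇ ℂ)]

lemma norm_one_le (x : ℕ →ᵇ ℂ) :
    ‖(CStarMatrix.ofMatrix (Matrix.of fun (_ _ : Fin 1) => x) :
      CStarMatrix (Fin 1) (Fin 1) (ℕ →ᵇ ℂ))‖ ≤ ‖x‖ := by
  apply norm_le_of_eval (norm_nonneg _)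
  intro c t
  simp only [Finset.univ_unique, Finset.sum_singleton]
  rw [norm_mul, mul_pow, mul_comm]
  gcongr
  exact BoundedContinuousFunction.norm_coe_le_norm x t

lemma norm_blk_le (h6 : (6 : ZMod p) ≠ 0) (x y : ℕ →ᵇ ℂ) :
    ‖blk (p := p) x y‖ ≤ √2 * ‖x‖ * ‖y‖ := by
  apply ContinuousLinearMap.opNorm_le_bound _ (by positivity)
  intro ξ
  have h := blk_jcb h6
    (CStarMatrix.ofMatrix (Matrix.of fun (_ _ : Fin 1) => x) :
      CStarMatrix (Fin 1) (Fin 1) (ℕ →ᵇ ℂ))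
    (CStarMatrix.ofMatrix (Matrix.of fun (_ _ : Fin 1) => y) :
      CStarMatrix (Fin 1) (Fin 1) (ℕ →ᵇ ℂ)) (fun _ => ξ)
  simp only [Fintype.sum_prod_type, Fin.sum_univ_one] at h
  change ‖blk x y ξ‖ ^ 2 ≤ _ at h
  apply le_of_sq_le_sq _ (by positivity)
  refine h.trans ?_
  have hx := norm_one_le x
  have hy := norm_one_le y
  calc _ ≤ 2 * (‖x‖ ^ 2 * ‖y‖ ^ 2) * ‖ξ‖ ^ 2 := by gcongr
    _ = (√2 * ‖x‖ * ‖y‖ * ‖ξ‖) ^ 2 := by
      rw [mul_pow, mul_pow, mul_pow, Real.sq_sqrt (by norm_num)]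
      ring

end BlkNorm

end Pool.Agent.Lib.MP_cdaa24_an
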