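import Pool.Agent.Lib.MP_cdaa24_an.Fourier

/-!
The core estimate: a realignment type bound for the cubic phase tensor.
-/

open Finset
open scoped ComplexConjugate

namespace Pool.Agent.Lib.MP_cdaa24_an

variable {p : ℕ} [hp : Fact p.Prime]

/-- The cubic phase. -/
noncomputable def th (i j : ZMod p) : ℂ := ch (i ^ 3 + 3 * i ^ 2 * j)

lemma norm_th (i j : ZMod p) : ‖th i j‖ = 1 := norm_ch _

lemma th_mul_conj (i j d : ZMod p) :
    th i j * conj (th (i - d) (j + d)) =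
      ch (-2 * d ^ 3) * (ch (6 * d * i * j) * (ch (3 * d ^ 2 * i) * ch (-3 * d ^ 2 * j))) := by
  unfold th
  rw [conj_ch, ← ch_add, ← ch_add, ← ch_add, ← ch_add]
  congr 1
  ring

section Core

variable {V : Type*} [NormedAddCommGroup V] [InnerProductSpace ℂ V] [CompleteSpace V]

open ContinuousLinearMap in
lemma inner_rearrange {a a' b b' : V →L[ℂ] V}
    (h1 : ∀ x, a (b x) = b (a x)) (h2 : ∀ x, adjoint a' (b x) = b (adjoint a' x)) (ξ : V) :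
    inner ℂ (adjoint a (adjoint b ξ)) (adjoint a' (adjoint b' ξ)) =
      inner ℂ (a' (adjoint a ξ)) (b (adjoint b' ξ)) := by
  have e1 : adjoint a (adjoint b ξ) = adjoint b (adjoint a ξ) := by
    apply ext_inner_right ℂ
    intro w
    rw [adjoint_inner_left, adjoint_inner_left, adjoint_inner_left, adjoint_inner_left, h1]
  have e2 : ∀ x, a' (adjoint b x) = adjoint b (a' x) := by
    intro x
    apply ext_inner_right ℂ
    intro w
    calc inner ℂ (a' (adjoint b x)) w = inner ℂ (adjoint b x) (adjoint a' w) :=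
          (adjoint_inner_right _ _ _).symm
      _ = inner ℂ x (b (adjoint a' w)) := adjoint_inner_left _ _ _
      _ = inner ℂ x (adjoint a' (b w)) := by rw [h2]
      _ = inner ℂ (a' x) (b w) := adjoint_inner_right _ _ _
      _ = inner ℂ (adjoint b (a' x)) w := (adjoint_inner_left _ _ _).symm
  rw [e1, adjoint_inner_right, e2, adjoint_inner_left]

open ContinuousLinearMap in
/-- The core estimate. -/
theorem core_estimate (h6 : (6 : ZMod p) ≠ 0) (α β : ZMod p → V →L[ℂ] V)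
    (hc : ∀ i j x, α i (β j x) = β j (α i x))
    (hc' : ∀ i j x, adjoint (α i) (β j x) = β j (adjoint (α i) x))
    {R S : ℝ} (hR : 0 ≤ R) (hS : 0 ≤ S)
    (hα : ∀ ξ, ∑ i, ‖α i ξ‖ ^ 2 ≤ R * ‖ξ‖ ^ 2)
    (hα' : ∀ ξ, ∑ i, ‖adjoint (α i) ξ‖ ^ 2 ≤ R * ‖ξ‖ ^ 2)
    (hβ : ∀ ξ, ∑ i, ‖β i ξ‖ ^ 2 ≤ S * ‖ξ‖ ^ 2)
    (hβ' : ∀ ξ, ∑ i, ‖adjoint (β i) ξ‖ ^ 2 ≤ S * ‖ξ‖ ^ 2) (ξ : V) :
    ∑ s, ‖∑ i, conj (th i (s - i)) • adjoint (α i) (adjoint (β (s - i)) ξ)‖ ^ 2 ≤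
      (1 + √p) * (R * S) * ‖ξ‖ ^ 2 := by
  -- the expanded sum
  set T : ZMod p → ZMod p → ZMod p → ℂ := fun d i j =>
    th i j * conj (th (i - d) (j + d)) *
      inner ℂ (α (i - d) (adjoint (α i) ξ)) (β j (adjoint (β (j + d)) ξ)) with hT
  have hexp : ((∑ s, ‖∑ i, conj (th i (s - i)) • adjoint (α i) (adjoint (β (s - i)) ξ)‖ ^ 2 : ℝ) :
      ℂ) = ∑ d, ∑ i, ∑ j, T d i j := by
    push_cast
    have h1 : ∀ s : ZMod p,
        ((‖∑ i, conj (th i (s - i)) • adjoint (α i) (adjoint (β (s - i)) ξ)‖ : ℝ) : ℂ) ^ 2 =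
        ∑ i, ∑ i', th i (s - i) * conj (th i' (s - i')) *
          inner ℂ (α i' (adjoint (α i) ξ)) (β (s - i) (adjoint (β (s - i')) ξ)) := by
      intro s
      rw [normSq_eq_inner, sum_inner]
      refine Finset.sum_congr rfl fun i _ => ?_
      rw [inner_sum]
      refine Finset.sum_congr rfl fun i' _ => ?_
      rw [inner_smul_left, inner_smul_right, Complex.conj_conj, ← mul_assoc,
        inner_rearrange (hc i (s - i)) (hc' i' (s - i))]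
    simp_rw [h1]
    -- substitute `i' = i - d`
    have h2 : ∀ s i : ZMod p, ∑ i', th i (s - i) * conj (th i' (s - i')) *
          inner ℂ (α i' (adjoint (α i) ξ)) (β (s - i) (adjoint (β (s - i')) ξ)) =
        ∑ d, T d i (s - i) := by
      intro s i
      rw [← (Equiv.subLeft i).sum_comp]
      refine Finset.sum_congr rfl fun d _ => ?_
      simp only [Equiv.subLeft_apply, hT]
      have : s - (i - d) = s - i + d := by ring
      rw [this]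
    simp_rw [h2]
    rw [Finset.sum_comm]
    have h3 : ∀ i : ZMod p, ∑ s, ∑ d, T d i (s - i) = ∑ j, ∑ d, T d i j := by
      intro i
      exact Fintype.sum_equiv (Equiv.subRight i) _ _ (fun s => rfl)
    simp_rw [h3]
    calc ∑ i, ∑ j, ∑ d, T d i j = ∑ i, ∑ d, ∑ j, T d i j := by
          refine Finset.sum_congr rfl fun i _ => Finset.sum_comm
      _ = ∑ d, ∑ i, ∑ j, T d i j := Finset.sum_comm
  -- the diagonal term
  have hzero : ‖∑ i, ∑ j, T 0 i j‖ ≤ R * S * ‖ξ‖ ^ 2 := by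
    have h1 : ∀ i j : ZMod p, T 0 i j = ((‖adjoint (α i) (adjoint (β j) ξ)‖ ^ 2 : ℝ) : ℂ) := by
      intro i j
      simp only [hT, sub_zero, add_zero]
      rw [Complex.mul_conj, Complex.normSq_eq_norm_sq, norm_th,
        ← inner_rearrange (hc i j) (hc' i j), ← normSq_eq_inner]
      push_cast
      ring
    have h2 : ∑ i, ∑ j, T 0 i j =
        ((∑ j, ∑ i, ‖adjoint (α i) (adjoint (β j) ξ)‖ ^ 2 : ℝ) : ℂ) := by
      simp_rw [h1]
      rw [Finset.sum_comm]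
      push_cast
      rfl
    rw [h2, Complex.norm_real, Real.norm_eq_abs, abs_of_nonneg (by positivity)]
    calc ∑ j, ∑ i, ‖adjoint (α i) (adjoint (β j) ξ)‖ ^ 2
        ≤ ∑ j, R * ‖adjoint (β j) ξ‖ ^ 2 := Finset.sum_le_sum fun j _ => hα' _
      _ = R * ∑ j, ‖adjoint (β j) ξ‖ ^ 2 := by rw [Finset.mul_sum]
      _ ≤ R * (S * ‖ξ‖ ^ 2) := by gcongr; exact hβ' ξ
      _ = R * S * ‖ξ‖ ^ 2 := by ring
  -- the off diagonal terms
  set P : ZMod p → ℝ := fun d => ∑ i, ‖α (i - d) (adjoint (α i) ξ)‖ ^ 2 with hP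
  set Q : ZMod p → ℝ := fun d => ∑ j, ‖β j (adjoint (β (j + d)) ξ)‖ ^ 2 with hQ
  have hPnn : ∀ d, 0 ≤ P d := fun d => by simp only [hP]; positivity
  have hQnn : ∀ d, 0 ≤ Q d := fun d => by simp only [hQ]; positivity
  have hoff : ∀ d : ZMod p, d ≠ 0 → ‖∑ i, ∑ j, T d i j‖ ≤ √p * (√(P d) * √(Q d)) := by
    intro d hd
    have h6d : 6 * d ≠ 0 := mul_ne_zero h6 hd
    have e1 : ∑ i, ∑ j, T d i j = ch (-2 * d ^ 3) *
        ∑ i, ∑ j, ch (6 * d * i * j) *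
          inner ℂ (ch (-(3 * d ^ 2 * i)) • α (i - d) (adjoint (α i) ξ))
            (ch (-3 * d ^ 2 * j) • β j (adjoint (β (j + d)) ξ)) := by
      rw [Finset.mul_sum]
      refine Finset.sum_congr rfl fun i _ => ?_
      rw [Finset.mul_sum]
      refine Finset.sum_congr rfl fun j _ => ?_
      simp only [hT]
      rw [th_mul_conj, inner_smul_left, inner_smul_right, conj_ch, neg_neg]
      ring
    rw [e1, norm_mul, norm_ch, one_mul]
    refine (bilinear_ch_le h6d _ _).trans (le_of_eq ?_)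
    simp only [norm_smul, norm_ch, one_mul, hP, hQ]
  have hsumP : ∑ d, P d ≤ R ^ 2 * ‖ξ‖ ^ 2 := by
    simp only [hP]
    rw [Finset.sum_comm]
    have e1 : ∀ i : ZMod p, ∑ d, ‖α (i - d) (adjoint (α i) ξ)‖ ^ 2 =
        ∑ i', ‖α i' (adjoint (α i) ξ)‖ ^ 2 := by
      intro i
      exact Fintype.sum_equiv (Equiv.subLeft i) _ _ (fun d => rfl)
    simp_rw [e1]
    calc ∑ i, ∑ i', ‖α i' (adjoint (α i) ξ)‖ ^ 2
        ≤ ∑ i, R * ‖adjoint (α i) ξ‖ ^ 2 := Finset.sum_le_sum fun i _ => hα _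
      _ = R * ∑ i, ‖adjoint (α i) ξ‖ ^ 2 := by rw [Finset.mul_sum]
      _ ≤ R * (R * ‖ξ‖ ^ 2) := by gcongr; exact hα' ξ
      _ = R ^ 2 * ‖ξ‖ ^ 2 := by ring
  have hsumQ : ∑ d, Q d ≤ S ^ 2 * ‖ξ‖ ^ 2 := by
    have e1 : ∑ d, Q d = ∑ j', ∑ j, ‖β j (adjoint (β j') ξ)‖ ^ 2 := by
      simp only [hQ]
      rw [Finset.sum_comm]
      have e2 : ∀ j : ZMod p, ∑ d, ‖β j (adjoint (β (j + d)) ξ)‖ ^ 2 =
          ∑ j', ‖β j (adjoint (β j') ξ)‖ ^ 2 := by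
        intro j
        exact Fintype.sum_equiv (Equiv.addLeft j) _ _ (fun d => rfl)
      simp_rw [e2]
      rw [Finset.sum_comm]
    rw [e1]
    calc ∑ j', ∑ j, ‖β j (adjoint (β j') ξ)‖ ^ 2
        ≤ ∑ j', S * ‖adjoint (β j') ξ‖ ^ 2 := Finset.sum_le_sum fun j' _ => hβ _
      _ = S * ∑ j', ‖adjoint (β j') ξ‖ ^ 2 := by rw [Finset.mul_sum]
      _ ≤ S * (S * ‖ξ‖ ^ 2) := by gcongr; exact hβ' ξ
      _ = S ^ 2 * ‖ξ‖ ^ 2 := by ring
  have hall : ∀ d : ZMod p, ‖∑ i, ∑ j, T d i j‖ ≤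
      (if d = 0 then R * S * ‖ξ‖ ^ 2 else 0) + √p * (√(P d) * √(Q d)) := by
    intro d
    by_cases hd : d = 0
    · subst hd
      simp only [if_true]
      have : 0 ≤ √p * (√(P 0) * √(Q 0)) := by positivity
      linarith
    · simp only [hd, if_false, zero_add]
      exact hoff d hd
  have hfin : ∑ s, ‖∑ i, conj (th i (s - i)) • adjoint (α i) (adjoint (β (s - i)) ξ)‖ ^ 2 ≤
      ∑ d : ZMod p, ((if d = 0 then R * S * ‖ξ‖ ^ 2 else 0) + √p * (√(P d) * √(Q d))) := by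
    have h1 : ∑ s, ‖∑ i, conj (th i (s - i)) • adjoint (α i) (adjoint (β (s - i)) ξ)‖ ^ 2 =
        ‖∑ d, ∑ i, ∑ j, T d i j‖ := by
      rw [← hexp, Complex.norm_real, Real.norm_eq_abs, abs_of_nonneg (by positivity)]
    rw [h1]
    exact (norm_sum_le _ _).trans (Finset.sum_le_sum fun d _ => hall d)
  refine hfin.trans ?_
  rw [Finset.sum_add_distrib, Finset.sum_ite_eq' Finset.univ (0 : ZMod p), if_pos (Finset.mem_univ _),
    ← Finset.mul_sum]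
  have hCS : ∑ d, √(P d) * √(Q d) ≤ R * S * ‖ξ‖ ^ 2 := by
    calc ∑ d, √(P d) * √(Q d) ≤ √(∑ d, √(P d) ^ 2) * √(∑ d, √(Q d) ^ 2) :=
          Real.sum_mul_le_sqrt_mul_sqrt _ _ _
      _ = √(∑ d, P d) * √(∑ d, Q d) := by
          simp_rw [Real.sq_sqrt (hPnn _), Real.sq_sqrt (hQnn _)]
      _ ≤ √(R ^ 2 * ‖ξ‖ ^ 2) * √(S ^ 2 * ‖ξ‖ ^ 2) := by gcongr
      _ = R * S * ‖ξ‖ ^ 2 := by
          rw [← mul_pow, ← mul_pow, Real.sqrt_sq (by positivity), Real.sqrt_sq (by positivity)]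
          ring
  have : √p * ∑ d, √(P d) * √(Q d) ≤ √p * (R * S * ‖ξ‖ ^ 2) := by gcongr
  linarith

open ContinuousLinearMap in
/-- Dual form of the core estimate. -/
theorem core_dual (h6 : (6 : ZMod p) ≠ 0) (α β : ZMod p → V →L[ℂ] V)
    (hc : ∀ i j x, α i (β j x) = β j (α i x))
    (hc' : ∀ i j x, adjoint (α i) (β j x) = β j (adjoint (α i) x))
    {R S : ℝ} (hR : 0 ≤ R) (hS : 0 ≤ S)
    (hα : ∀ ξ, ∑ i, ‖α i ξ‖ ^ 2 ≤ R * ‖ξ‖ ^ 2)
    (hα' : ∀ ξ, ∑ i, ‖adjoint (α i) ξ‖ ^ 2 ≤ R * ‖ξ‖ ^ 2)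
    (hβ : ∀ ξ, ∑ i, ‖β i ξ‖ ^ 2 ≤ S * ‖ξ‖ ^ 2)
    (hβ' : ∀ ξ, ∑ i, ‖adjoint (β i) ξ‖ ^ 2 ≤ S * ‖ξ‖ ^ 2) (x : ZMod p → V) :
    ‖∑ s, ∑ i, th i (s - i) • α i (β (s - i) (x s))‖ ^ 2 ≤
      (1 + √p) * (R * S) * ∑ s, ‖x s‖ ^ 2 := by
  set w : V := ∑ s, ∑ i, th i (s - i) • α i (β (s - i) (x s)) with hw
  set K : ℝ := (1 + √p) * (R * S) with hK
  have hK0 : 0 ≤ K := by positivity
  have hcore := core_estimate h6 α β hc hc' hR hS hα hα' hβ hβ' w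
  rw [← hK] at hcore
  set y : ZMod p → V := fun s =>
    ∑ i, conj (th i (s - i)) • adjoint (α i) (adjoint (β (s - i)) w) with hy
  have hadj : ∀ i j : ZMod p, ∀ v, adjoint (β j) (adjoint (α i) v) =
      adjoint (α i) (adjoint (β j) v) := by
    intro i j v
    apply ext_inner_right ℂ
    intro u
    rw [adjoint_inner_left, adjoint_inner_left, adjoint_inner_left, adjoint_inner_left, hc]
  have h1 : ((‖w‖ : ℝ) : ℂ) ^ 2 = ∑ s, inner ℂ (y s) (x s) := by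
    rw [normSq_eq_inner]
    conv_lhs => rw [hw]
    rw [← hw]
    conv_lhs => arg 3; rw [hw]
    rw [inner_sum]
    refine Finset.sum_congr rfl fun s _ => ?_
    simp only [hy]
    rw [inner_sum, sum_inner]
    refine Finset.sum_congr rfl fun i _ => ?_
    rw [inner_smul_right, inner_smul_left, Complex.conj_conj, ← hadj, adjoint_inner_left,
      adjoint_inner_left]
  have h2 : ‖w‖ ^ 2 ≤ √(∑ s, ‖y s‖ ^ 2) * √(∑ s, ‖x s‖ ^ 2) := by
    have := norm_sum_inner_le Finset.univ y x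
    rw [← h1, norm_pow, Complex.norm_real, norm_norm] at this
    exact this
  have h3 : √(∑ s, ‖y s‖ ^ 2) ≤ √K * ‖w‖ := by
    calc √(∑ s, ‖y s‖ ^ 2) ≤ √(K * ‖w‖ ^ 2) := Real.sqrt_le_sqrt hcore
      _ = √K * ‖w‖ := by rw [Real.sqrt_mul hK0, Real.sqrt_sq (norm_nonneg _)]
  have hX0 : 0 ≤ ∑ s, ‖x s‖ ^ 2 := by positivity
  rcases (norm_nonneg w).eq_or_lt with h0 | h0
  · rw [← h0]
    have : 0 ≤ K * ∑ s, ‖x s‖ ^ 2 := by positivity
    simpa using this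
  · have h4 : ‖w‖ * ‖w‖ ≤ (√K * √(∑ s, ‖x s‖ ^ 2)) * ‖w‖ := by
      calc ‖w‖ * ‖w‖ = ‖w‖ ^ 2 := by ring
        _ ≤ √(∑ s, ‖y s‖ ^ 2) * √(∑ s, ‖x s‖ ^ 2) := h2
        _ ≤ (√K * ‖w‖) * √(∑ s, ‖x s‖ ^ 2) := by gcongr
        _ = _ := by ring
    have h5 : ‖w‖ ≤ √K * √(∑ s, ‖x s‖ ^ 2) := le_of_mul_le_mul_right h4 h0
    calc ‖w‖ ^ 2 ≤ (√K * √(∑ s, ‖x s‖ ^ 2)) ^ 2 := by gcongr
      _ = K * ∑ s, ‖x s‖ ^ 2 := by
        rw [mul_pow, Real.sq_sqrt hK0, Real.sq_sqrt hX0]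

end Core

end Pool.Agent.Lib.MP_cdaa24_an
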