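import Pool.Agent.Lib.MP_cdaa24_an.Block

/-!
The jointly bounded bilinear map on the Hilbert direct sum.
-/

open Finset
open scoped ComplexConjugate CStarMatrix BoundedContinuousFunction ENNReal

namespace Pool.Agent.Lib.MP_cdaa24_an

/-- The Hilbert space. -/
abbrev HH : Type := lp (fun k : ℕ => EuclideanSpace ℂ (ZMod (P k))) 2

lemma hh_hasSum (f : HH) : HasSum (fun k => ‖f k‖ ^ 2) (‖f‖ ^ 2) := by
  have h := lp.hasSum_norm (p := 2) (by norm_num) f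
  simpa using h

section

variable [PartialOrder (ℕ →ᵇ ℂ)] [StarOrderedRing (ℕ →ᵇ ℂ)]

/-- The bilinear map, evaluated at a pair. -/
noncomputable def bigOp (x y : ℕ →ᵇ ℂ) : HH →L[ℂ] HH :=
  lp.mapCLM 2 (fun k => blk (p := P k) x y) (K := √2 * ‖x‖ * ‖y‖) (by positivity)
    (fun k => norm_blk_le (six_ne_zero_P k) x y)

lemma bigOp_apply (x y : ℕ →ᵇ ℂ) (ξ : HH) (k : ℕ) :
    (bigOp x y ξ : HH) k = blk x y (ξ k) := rfl

/-- The bilinear map. -/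
noncomputable def phi : (ℕ →ᵇ ℂ) →ₗ[ℂ] (ℕ →ᵇ ℂ) →ₗ[ℂ] (HH →L[ℂ] HH) :=
  LinearMap.mk₂ ℂ bigOp
    (by
      intro x x' y
      ext1 ξ
      refine lp.ext (funext fun k => ?_)
      rw [bigOp_apply, add_apply, lp.coeFn_add, Pi.add_apply, bigOp_apply, bigOp_apply,
        blk_add_left]
      rfl)
    (by
      intro c x y
      ext1 ξ
      refine lp.ext (funext fun k => ?_)
      rw [bigOp_apply, smul_apply, lp.coeFn_smul, Pi.smul_apply, bigOp_apply,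
        blk_smul_left]
      rfl)
    (by
      intro x y y'
      ext1 ξ
      refine lp.ext (funext fun k => ?_)
      rw [bigOp_apply, add_apply, lp.coeFn_add, Pi.add_apply, bigOp_apply, bigOp_apply,
        blk_add_right]
      rfl)
    (by
      intro c x y
      ext1 ξ
      refine lp.ext (funext fun k => ?_)
      rw [bigOp_apply, smul_apply, lp.coeFn_smul, Pi.smul_apply, bigOp_apply,
        blk_smul_right]
      rfl)

lemma phi_apply (x y : ℕ →ᵇ ℂ) (ξ : HH) (k : ℕ) :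
    (phi x y ξ : HH) k = blk x y (ξ k) := rfl

variable {ι κ : Type*} [Fintype ι] [Fintype κ] [DecidableEq ι] [DecidableEq κ]

theorem phi_jcb (a : CStarMatrix ι ι (ℕ →ᵇ ℂ))
    (b : CStarMatrix κ κ (ℕ →ᵇ ℂ)) (x : ι × κ → HH) :
    ∑ P : ι × κ, ‖∑ Q : ι × κ, phi (a P.1 Q.1) (b P.2 Q.2) (x Q)‖ ^ 2 ≤
      (√2 * ‖a‖ * ‖b‖) ^ 2 * ∑ Q : ι × κ, ‖x Q‖ ^ 2 := by
  have h1 : HasSum (fun k => ∑ P : ι × κ, ‖(∑ Q : ι × κ, phi (a P.1 Q.1) (b P.2 Q.2) (x Q)) k‖ ^ 2)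
      (∑ P : ι × κ, ‖∑ Q : ι × κ, phi (a P.1 Q.1) (b P.2 Q.2) (x Q)‖ ^ 2) :=
    hasSum_sum fun P _ => hh_hasSum _
  have h2 : HasSum (fun k => (√2 * ‖a‖ * ‖b‖) ^ 2 * ∑ Q : ι × κ, ‖x Q k‖ ^ 2)
      ((√2 * ‖a‖ * ‖b‖) ^ 2 * ∑ Q : ι × κ, ‖x Q‖ ^ 2) :=
    (hasSum_sum fun P _ => hh_hasSum _).mul_left _
  refine hasSum_le (fun k => ?_) h1 h2
  have h3 := blk_jcb (six_ne_zero_P k) a b (fun Q => x Q k)
  have e : (√2 * ‖a‖ * ‖b‖) ^ 2 = 2 * (‖a‖ ^ 2 * ‖b‖ ^ 2) := by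
    rw [mul_pow, mul_pow, Real.sq_sqrt (by norm_num), mul_assoc]
  rw [e]
  refine le_trans (le_of_eq ?_) h3
  refine Finset.sum_congr rfl fun P _ => ?_
  congr 2
  rw [lp.coeFn_sum, Finset.sum_apply]
  rfl

end

end Pool.Agent.Lib.MP_cdaa24_an
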