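import Pool.Agent.Lib.MP_cdaa24_an.Lower

/-!
The contradiction.
-/

open Finset
open scoped ComplexConjugate CStarMatrix BoundedContinuousFunction ENNReal

namespace Pool.Agent.Lib.MP_cdaa24_an

variable [PartialOrder (ℕ →ᵇ ℂ)] [StarOrderedRing (ℕ →ᵇ ℂ)]

section Use

variable {H : Type*} [NormedAddCommGroup H] [InnerProductSpace ℂ H]

lemma norm_reindex_le {ι : Type*} [Fintype ι] {n : ℕ} (e : Fin n ≃ ι)
    (a : ι → ι → (ℕ →ᵇ ℂ)) {K : ℝ} (hK : 0 ≤ K)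
    (ha : ∀ (c : ι → ℂ) (t : ℕ), ∑ j, ‖∑ i, c i * (a i j) t‖ ^ 2 ≤ K ^ 2 * ∑ i, ‖c i‖ ^ 2) :
    ‖(CStarMatrix.ofMatrix (Matrix.of fun i j => a (e i) (e j)) :
      CStarMatrix (Fin n) (Fin n) (ℕ →ᵇ ℂ))‖ ≤ K := by
  apply norm_le_of_eval hK
  intro c t
  have h := ha (fun i => c (e.symm i)) t
  rw [← e.sum_comp, ← e.sum_comp (fun i => ‖c (e.symm i)‖ ^ 2)] at h
  simp only [Equiv.symm_apply_apply] at h
  refine le_trans (le_of_eq ?_) h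
  refine Finset.sum_congr rfl fun j _ => ?_
  rw [← e.sum_comp]
  simp only [Equiv.symm_apply_apply]
  rfl

/-- The Haagerup bound, for index sets other than `Fin n`. -/
lemma haag_use (ψ : (ℕ →ᵇ ℂ) →ₗ[ℂ] (ℕ →ᵇ ℂ) →ₗ[ℂ] (H →L[ℂ] H)) (C : ℝ)
    (h : ∀ (n : ℕ) (a : CStarMatrix (Fin n) (Fin n) (ℕ →ᵇ ℂ))
      (b : CStarMatrix (Fin n) (Fin n) (ℕ →ᵇ ℂ)) (x : Fin n → H),
        ∑ i : Fin n, ‖∑ j : Fin n, ∑ k : Fin n, ψ (a i k) (b k j) (x j)‖ ^ 2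
          ≤ (C * ‖a‖ * ‖b‖) ^ 2 * ∑ j : Fin n, ‖x j‖ ^ 2)
    {ι : Type*} [Fintype ι] (a b : ι → ι → (ℕ →ᵇ ℂ)) {Ka Kb : ℝ} (hKa : 0 ≤ Ka) (hKb : 0 ≤ Kb)
    (ha : ∀ (c : ι → ℂ) (t : ℕ), ∑ j, ‖∑ i, c i * (a i j) t‖ ^ 2 ≤ Ka ^ 2 * ∑ i, ‖c i‖ ^ 2)
    (hb : ∀ (c : ι → ℂ) (t : ℕ), ∑ j, ‖∑ i, c i * (b i j) t‖ ^ 2 ≤ Kb ^ 2 * ∑ i, ‖c i‖ ^ 2)
    (x : ι → H) :
    ∑ i, ‖∑ j, ∑ k, ψ (a i k) (b k j) (x j)‖ ^ 2 ≤ (|C| * Ka * Kb) ^ 2 * ∑ j, ‖x j‖ ^ 2 := by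
  classical
  set e : Fin (Fintype.card ι) ≃ ι := (Fintype.equivFin ι).symm with he
  have h1 := h (Fintype.card ι)
    (CStarMatrix.ofMatrix (Matrix.of fun i j => a (e i) (e j)))
    (CStarMatrix.ofMatrix (Matrix.of fun i j => b (e i) (e j))) (fun i => x (e i))
  have ha' := norm_reindex_le e a hKa ha
  have hb' := norm_reindex_le e b hKb hb
  rw [e.sum_comp (fun i => ‖x i‖ ^ 2)] at h1
  have h2 : ∑ i, ‖∑ j, ∑ k, ψ (a i k) (b k j) (x j)‖ ^ 2 =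
      ∑ i, ‖∑ j, ∑ k, ψ (a (e i) (e k)) (b (e k) (e j)) (x (e j))‖ ^ 2 := by
    rw [← e.sum_comp]
    refine Finset.sum_congr rfl fun i _ => ?_
    rw [← e.sum_comp]
    congr 2
    refine Finset.sum_congr rfl fun j _ => ?_
    rw [← e.sum_comp]
  rw [h2]
  refine h1.trans ?_
  have h3 : (C * ‖(CStarMatrix.ofMatrix (Matrix.of fun i j => a (e i) (e j)) :
      CStarMatrix (Fin (Fintype.card ι)) (Fin (Fintype.card ι)) (ℕ →ᵇ ℂ))‖ *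
      ‖(CStarMatrix.ofMatrix (Matrix.of fun i j => b (e i) (e j)) :
      CStarMatrix (Fin (Fintype.card ι)) (Fin (Fintype.card ι)) (ℕ →ᵇ ℂ))‖) ^ 2 ≤
      (|C| * Ka * Kb) ^ 2 := by
    rw [mul_pow, mul_pow, mul_pow, mul_pow, sq_abs]
    gcongr
  gcongr

end Use

section Pair

/-- The test vector. -/
noncomputable def tv (k : ℕ) (s : ZMod (P k)) : HH :=
  lp.single 2 k (EuclideanSpace.single s 1)

omit [PartialOrder (ℕ →ᵇ ℂ)] [StarOrderedRing (ℕ →ᵇ ℂ)] in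
lemma norm_tv (k : ℕ) (s : ZMod (P k)) : ‖tv k s‖ = 1 := by
  unfold tv
  rw [lp.norm_single (by norm_num), PiLp.norm_single]
  simp

omit [PartialOrder (ℕ →ᵇ ℂ)] [StarOrderedRing (ℕ →ᵇ ℂ)] in
lemma sum_norm_tv (k : ℕ) : ∑ s : ZMod (P k), ‖tv k s‖ ^ 2 = P k := by
  simp_rw [norm_tv]
  simp [ZMod.card]

omit [PartialOrder (ℕ →ᵇ ℂ)] [StarOrderedRing (ℕ →ᵇ ℂ)] in
/-- The coordinate of a vector. -/
lemma norm_coord_le (k : ℕ) (f : HH) : ‖(f k) 0‖ ≤ ‖f‖ :=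
  (PiLp.norm_apply_le (f k) 0).trans (lp.norm_apply_le_norm (by norm_num) f k)

omit [PartialOrder (ℕ →ᵇ ℂ)] [StarOrderedRing (ℕ →ᵇ ℂ)] in
lemma fn_chi {p : ℕ} [hp : Fact p.Prime] (i s : ZMod p) :
    fn (chi i) (chi (s - i)) (EuclideanSpace.single s 1) = th i (s - i) := by
  classical
  unfold fn
  rw [Finset.sum_eq_single s]
  · rw [PiLp.single_apply, if_pos rfl, mul_one]
    unfold cf
    rw [Finset.sum_eq_single i]
    · rw [hat_chi, hat_chi, if_pos rfl, if_pos rfl]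
      ring
    · intro j _ hj
      rw [hat_chi, if_neg hj]
      ring
    · simp
  · intro j _ hj
    rw [PiLp.single_apply, if_neg hj, mul_zero]
  · simp

lemma phi_test (k : ℕ) (i s : ZMod (P k)) :
    (phi (chi i) (chi (s - i)) (tv k s) : HH) k 0 = (lam (P k) : ℂ) * th i (s - i) := by
  rw [phi_apply]
  unfold tv
  rw [lp.single_apply_self, blk_apply, fn_chi, PiLp.smul_apply, PiLp.single_apply, if_pos rfl,
    smul_eq_mul, mul_one]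

/-- The pairing. -/
noncomputable def pair (k : ℕ) (ψ : (ℕ →ᵇ ℂ) → (ℕ →ᵇ ℂ) → (HH →L[ℂ] HH)) : ℂ :=
  ∑ i : ZMod (P k), ∑ s, conj (th i (s - i)) * (ψ (chi i) (chi (s - i)) (tv k s) : HH) k 0

lemma pair_phi (k : ℕ) : pair k (fun x y => phi x y) = lam (P k) * (P k : ℂ) ^ 2 := by
  unfold pair
  simp_rw [phi_test]
  have h : ∀ i s : ZMod (P k), conj (th i (s - i)) * ((lam (P k) : ℂ) * th i (s - i)) =
      lam (P k) := by
    intro i s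
    have : conj (th i (s - i)) * th i (s - i) = 1 := by
      rw [mul_comm, Complex.mul_conj, Complex.normSq_eq_norm_sq, norm_th]; simp
    linear_combination (lam (P k) : ℂ) * this
  simp_rw [h]
  simp [ZMod.card]
  ring

omit [PartialOrder (ℕ →ᵇ ℂ)] [StarOrderedRing (ℕ →ᵇ ℂ)] in
/-- Bound for the pairing from a row estimate. -/
lemma norm_sum_coord_le (k : ℕ) (v : ZMod (P k) → HH) {C : ℝ} (hC : 0 ≤ C)
    (h : ∑ i, ‖v i‖ ^ 2 ≤ (C * 1 * (√2 * √(P k))) ^ 2 * P k) :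
    ‖∑ i, (v i) k 0‖ ≤ √2 * C * (P k) * √(P k) := by
  have h1 : ‖∑ i, (v i) k 0‖ ^ 2 ≤ (P k : ℝ) * ∑ i, ‖v i‖ ^ 2 := by
    calc ‖∑ i, (v i) k 0‖ ^ 2 ≤ (∑ i, ‖(v i) k 0‖) ^ 2 := by
          gcongr
          exact norm_sum_le _ _
      _ ≤ ((Finset.univ : Finset (ZMod (P k))).card : ℝ) * ∑ i, ‖(v i) k 0‖ ^ 2 :=
          sq_sum_le_card_mul_sum_sq
      _ ≤ _ := by
          rw [Finset.card_univ, ZMod.card]
          gcongr with i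
          exact norm_coord_le k (v i)
  apply le_of_sq_le_sq _ (by positivity)
  refine h1.trans ?_
  have h2 : √(P k : ℝ) ^ 2 = P k := Real.sq_sqrt (by positivity)
  have h3 : √(2 : ℝ) ^ 2 = 2 := Real.sq_sqrt (by norm_num)
  calc (P k : ℝ) * ∑ i, ‖v i‖ ^ 2 ≤ P k * ((C * 1 * (√2 * √(P k))) ^ 2 * P k) := by gcongr
    _ = _ := by
      ring


lemma pair_one_le (k : ℕ) (ψ : (ℕ →ᵇ ℂ) →ₗ[ℂ] (ℕ →ᵇ ℂ) →ₗ[ℂ] (HH →L[ℂ] HH)) (C : ℝ)
    (h : ∀ (n : ℕ) (a : CStarMatrix (Fin n) (Fin n) (ℕ →ᵇ ℂ))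
      (b : CStarMatrix (Fin n) (Fin n) (ℕ →ᵇ ℂ)) (x : Fin n → HH),
        ∑ i : Fin n, ‖∑ j : Fin n, ∑ k : Fin n, ψ (a i k) (b k j) (x j)‖ ^ 2
          ≤ (C * ‖a‖ * ‖b‖) ^ 2 * ∑ j : Fin n, ‖x j‖ ^ 2) :
    ‖pair k (fun x y => ψ x y)‖ ≤ √2 * |C| * (P k) * √(P k) := by
  classical
  have h1 := haag_use ψ C h (ι := ZMod (P k))
    (fun i j => if i = j then chi i else 0)
    (fun i j => conj (th i (j - i)) • chi (j - i))
    (Ka := 1) (Kb := √2 * √(P k)) (by norm_num) (by positivity)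
    (fun c t => diag_bound c t) (fun c t => test_bound (three_ne_zero_P k) c t) (tv k)
  rw [sum_norm_tv] at h1
  have h2 := norm_sum_coord_le k (fun i => ∑ j, ∑ l, ψ (if i = l then chi i else 0)
    (conj (th l (j - l)) • chi (j - l)) (tv k j)) (abs_nonneg C) h1
  refine le_trans (le_of_eq ?_) h2
  congr 1
  unfold pair
  refine Finset.sum_congr rfl fun i _ => ?_
  rw [lp.coeFn_sum, Finset.sum_apply, WithLp.ofLp_sum, Finset.sum_apply]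
  refine Finset.sum_congr rfl fun s _ => ?_
  rw [Finset.sum_eq_single i]
  · rw [if_pos rfl, map_smul, smul_apply, lp.coeFn_smul, Pi.smul_apply, PiLp.smul_apply,
      smul_eq_mul]
  · intro l _ hl
    rw [if_neg (Ne.symm hl)]
    simp
  · simp

lemma pair_two_le (k : ℕ) (ψ : (ℕ →ᵇ ℂ) →ₗ[ℂ] (ℕ →ᵇ ℂ) →ₗ[ℂ] (HH →L[ℂ] HH)) (C : ℝ)
    (h : ∀ (n : ℕ) (a : CStarMatrix (Fin n) (Fin n) (ℕ →ᵇ ℂ))
      (b : CStarMatrix (Fin n) (Fin n) (ℕ →ᵇ ℂ)) (x : Fin n → HH),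
        ∑ i : Fin n, ‖∑ j : Fin n, ∑ k : Fin n, ψ (a i k) (b k j) (x j)‖ ^ 2
          ≤ (C * ‖a‖ * ‖b‖) ^ 2 * ∑ j : Fin n, ‖x j‖ ^ 2) :
    ‖pair k (fun x y => ψ y x)‖ ≤ √2 * |C| * (P k) * √(P k) := by
  classical
  have h1 := haag_use ψ C h (ι := ZMod (P k))
    (fun i j => if i = j then chi i else 0)
    (fun i j => conj (th (j - i) i) • chi (j - i))
    (Ka := 1) (Kb := √2 * √(P k)) (by norm_num) (by positivity)
    (fun c t => diag_bound c t) (fun c t => test_bound' (three_ne_zero_P k) c t) (tv k)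
  rw [sum_norm_tv] at h1
  have h2 := norm_sum_coord_le k (fun i => ∑ j, ∑ l, ψ (if i = l then chi i else 0)
    (conj (th (j - l) l) • chi (j - l)) (tv k j)) (abs_nonneg C) h1
  refine le_trans (le_of_eq ?_) h2
  congr 1
  unfold pair
  rw [Finset.sum_comm]
  have h3 : ∀ s : ZMod (P k), ∑ i : ZMod (P k),
      conj (th i (s - i)) * (ψ (chi (s - i)) (chi i) (tv k s) : HH) k 0 =
      ∑ i : ZMod (P k), conj (th (s - i) i) * (ψ (chi i) (chi (s - i)) (tv k s) : HH) k 0 := by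
    intro s
    rw [← (Equiv.subLeft s).sum_comp]
    refine Finset.sum_congr rfl fun i _ => ?_
    simp only [Equiv.subLeft_apply, sub_sub_cancel]
  simp_rw [h3]
  rw [Finset.sum_comm]
  refine Finset.sum_congr rfl fun i _ => ?_
  rw [lp.coeFn_sum, Finset.sum_apply, WithLp.ofLp_sum, Finset.sum_apply]
  refine Finset.sum_congr rfl fun s _ => ?_
  rw [Finset.sum_eq_single i]
  · rw [if_pos rfl, map_smul, smul_apply, lp.coeFn_smul, Pi.smul_apply, PiLp.smul_apply,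
      smul_eq_mul]
  · intro l _ hl
    rw [if_neg (Ne.symm hl)]
    simp
  · simp

end Pair

/-- The bilinear map has no decomposition. -/
theorem no_decomposition (φ₁ φ₂ : (ℕ →ᵇ ℂ) →ₗ[ℂ] (ℕ →ᵇ ℂ) →ₗ[ℂ] (HH →L[ℂ] HH)) (C₁ C₂ : ℝ)
    (h₁ : ∀ (n : ℕ) (a : CStarMatrix (Fin n) (Fin n) (ℕ →ᵇ ℂ))
      (b : CStarMatrix (Fin n) (Fin n) (ℕ →ᵇ ℂ)) (x : Fin n → HH),
        ∑ i : Fin n, ‖∑ j : Fin n, ∑ k : Fin n, φ₁ (a i k) (b k j) (x j)‖ ^ 2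
          ≤ (C₁ * ‖a‖ * ‖b‖) ^ 2 * ∑ j : Fin n, ‖x j‖ ^ 2)
    (h₂ : ∀ (n : ℕ) (a : CStarMatrix (Fin n) (Fin n) (ℕ →ᵇ ℂ))
      (b : CStarMatrix (Fin n) (Fin n) (ℕ →ᵇ ℂ)) (x : Fin n → HH),
        ∑ i : Fin n, ‖∑ j : Fin n, ∑ k : Fin n, φ₂ (a i k) (b k j) (x j)‖ ^ 2
          ≤ (C₂ * ‖a‖ * ‖b‖) ^ 2 * ∑ j : Fin n, ‖x j‖ ^ 2)
    (hφ : ∀ a b, phi a b = φ₁ a b + φ₂ b a) : False := by
  have key : ∀ k : ℕ, √(P k : ℝ) ≤ 2 * (|C₁| + |C₂|) ^ 2 := by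
    intro k
    have e : pair k (fun x y => phi x y) =
        pair k (fun x y => φ₁ x y) + pair k (fun x y => φ₂ y x) := by
      unfold pair
      rw [← Finset.sum_add_distrib]
      refine Finset.sum_congr rfl fun i _ => ?_
      rw [← Finset.sum_add_distrib]
      refine Finset.sum_congr rfl fun s _ => ?_
      beta_reduce
      rw [hφ, add_apply, lp.coeFn_add, Pi.add_apply, PiLp.add_apply]
      ring
    have hb : ‖pair k (fun x y => phi x y)‖ ≤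
        √2 * |C₁| * (P k) * √(P k) + √2 * |C₂| * (P k) * √(P k) := by
      rw [e]
      exact (norm_add_le _ _).trans (add_le_add (pair_one_le k φ₁ C₁ h₁) (pair_two_le k φ₂ C₂ h₂))
    rw [pair_phi, norm_mul, Complex.norm_real, Real.norm_eq_abs, abs_of_nonneg (lam_nonneg _),
      norm_pow, Complex.norm_natCast] at hb
    have hp0 : (0 : ℝ) < P k := by exact_mod_cast (fact_P k).out.pos
    set q : ℝ := √(P k : ℝ) with hq
    have hq0 : 0 < q := Real.sqrt_pos.2 hp0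
    have hqq : (P k : ℝ) = q ^ 2 := (Real.sq_sqrt hp0.le).symm
    set l : ℝ := lam (P k) with hl
    have hl0 : 0 ≤ l := lam_nonneg _
    have hll : l ^ 2 = q⁻¹ := lam_sq _
    rw [hqq] at hb
    have h5 : l * q ≤ √2 * (|C₁| + |C₂|) := by
      have : (l * q) * q ^ 3 ≤ (√2 * (|C₁| + |C₂|)) * q ^ 3 := by
        calc (l * q) * q ^ 3 = l * (q ^ 2) ^ 2 := by ring
          _ ≤ _ := hb
          _ = _ := by ring
      exact le_of_mul_le_mul_right this (by positivity)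
    calc q = (l * q) ^ 2 := by
          rw [mul_pow, hll]; field_simp
      _ ≤ (√2 * (|C₁| + |C₂|)) ^ 2 := by gcongr
      _ = _ := by rw [mul_pow, Real.sq_sqrt (by norm_num)]
  obtain ⟨k, hk⟩ := exists_nat_gt ((2 * (|C₁| + |C₂|) ^ 2) ^ 2)
  have h1 := key k
  have h2 : (k : ℝ) ≤ P k := by
    have := le_P k
    exact_mod_cast (by omega : k ≤ P k)
  have h3 : (P k : ℝ) = √(P k : ℝ) ^ 2 := (Real.sq_sqrt (by positivity)).symm
  have h4 : √(P k : ℝ) ^ 2 ≤ (2 * (|C₁| + |C₂|) ^ 2) ^ 2 := by gcongr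
  linarith

end Pool.Agent.Lib.MP_cdaa24_an
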