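import Mathlib

/-!
Vector valued Parseval identity over `ZMod p` and the basic bilinear estimates.
-/

open Finset
open scoped ComplexConjugate

namespace Pool.Agent.Lib.MP_cdaa24_an

variable {p : ℕ} [hp : Fact p.Prime]

/-- The standard additive character of `ZMod p`. -/
noncomputable def ch (x : ZMod p) : ℂ := ZMod.stdAddChar (N := p) x

lemma ch_zero : ch (0 : ZMod p) = 1 := by simp [ch]

lemma ch_add (x y : ZMod p) : ch (x + y) = ch x * ch y := by
  simp [ch, AddChar.map_add_eq_mul]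

lemma norm_ch (x : ZMod p) : ‖ch x‖ = 1 := by
  simp [ch]

lemma conj_ch (x : ZMod p) : conj (ch x) = ch (-x) := by
  have h1 : ch x * ch (-x) = 1 := by rw [← ch_add, add_neg_cancel, ch_zero]
  have h2 : ch x * conj (ch x) = 1 := by
    rw [Complex.mul_conj, Complex.normSq_eq_norm_sq, norm_ch]; simp
  have h3 : ch x ≠ 0 := by
    intro h; rw [h, zero_mul] at h1; exact zero_ne_one h1
  exact mul_left_cancel₀ h3 (h2.trans h1.symm)

lemma sum_ch (b : ZMod p) : ∑ x : ZMod p, ch (x * b) = if b = 0 then (p : ℂ) else 0 := by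
  classical
  have := AddChar.sum_mulShift (ψ := ZMod.stdAddChar (N := p)) b (ZMod.isPrimitive_stdAddChar p)
  simp only [ch]
  rw [this]
  split_ifs <;> simp [ZMod.card]

section Vec

variable {V : Type*} [NormedAddCommGroup V] [InnerProductSpace ℂ V]

lemma normSq_eq_inner (x : V) : ((‖x‖ : ℝ) : ℂ) ^ 2 = inner ℂ x x := by
  rw [inner_self_eq_norm_sq_to_K]
  simp

/-- Vector valued Parseval identity. -/
lemma parseval (f : ZMod p → V) :
    ∑ u : ZMod p, ‖∑ j, ch (u * j) • f j‖ ^ 2 = p * ∑ j, ‖f j‖ ^ 2 := by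
  have key : ((∑ u : ZMod p, ‖∑ j, ch (u * j) • f j‖ ^ 2 : ℝ) : ℂ) =
      ((p * ∑ j, ‖f j‖ ^ 2 : ℝ) : ℂ) := by
    push_cast
    have h1 : ∀ u : ZMod p, ((‖∑ j, ch (u * j) • f j‖ : ℂ)) ^ 2 =
        ∑ j, ∑ k, ch (u * (k - j)) * inner ℂ (f j) (f k) := by
      intro u
      rw [normSq_eq_inner, sum_inner]
      refine Finset.sum_congr rfl fun j _ => ?_
      rw [inner_sum]
      refine Finset.sum_congr rfl fun k _ => ?_
      rw [inner_smul_left, inner_smul_right, conj_ch, ← mul_assoc, ← ch_add]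
      congr 2
      ring
    simp_rw [h1]
    rw [Finset.sum_comm]
    rw [Finset.mul_sum]
    refine Finset.sum_congr rfl fun j _ => ?_
    rw [Finset.sum_comm]
    have h2 : ∀ k : ZMod p, ∑ u : ZMod p, ch (u * (k - j)) * inner ℂ (f j) (f k) =
        if k = j then (p : ℂ) * inner ℂ (f j) (f k) else 0 := by
      intro k
      rw [← Finset.sum_mul, sum_ch]
      by_cases hkj : k = j
      · simp [hkj]
      · simp [hkj, sub_ne_zero.2 hkj]
    simp_rw [h2]
    simp only [Finset.sum_ite_eq', Finset.mem_univ, if_true]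
    rw [← normSq_eq_inner]
  exact_mod_cast key

/-- Parseval with a nonzero dilation. -/
lemma parseval_dilate {c : ZMod p} (hc : c ≠ 0) (f : ZMod p → V) :
    ∑ u : ZMod p, ‖∑ j, ch (c * u * j) • f j‖ ^ 2 = p * ∑ j, ‖f j‖ ^ 2 := by
  rw [← parseval f]
  exact Fintype.sum_equiv (Equiv.mulLeft₀ c hc) _ _ (fun u => rfl)

/-- Cauchy-Schwarz for sums of inner products. -/
lemma norm_sum_inner_le {ι : Type*} (s : Finset ι) (P Q : ι → V) :
    ‖∑ i ∈ s, inner ℂ (P i) (Q i)‖ ≤ √(∑ i ∈ s, ‖P i‖ ^ 2) * √(∑ i ∈ s, ‖Q i‖ ^ 2) := by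
  calc ‖∑ i ∈ s, inner ℂ (P i) (Q i)‖ ≤ ∑ i ∈ s, ‖inner ℂ (P i) (Q i)‖ := norm_sum_le _ _
    _ ≤ ∑ i ∈ s, ‖P i‖ * ‖Q i‖ := Finset.sum_le_sum fun i _ => norm_inner_le_norm _ _
    _ ≤ _ := Real.sum_mul_le_sqrt_mul_sqrt _ _ _

/-- The bilinear character estimate. -/
lemma bilinear_ch_le {c : ZMod p} (hc : c ≠ 0) (P Q : ZMod p → V) :
    ‖∑ i, ∑ j, ch (c * i * j) * inner ℂ (P i) (Q j)‖ ≤
      √p * (√(∑ i, ‖P i‖ ^ 2) * √(∑ j, ‖Q j‖ ^ 2)) := by
  have h1 : ∑ i, ∑ j, ch (c * i * j) * inner ℂ (P i) (Q j) =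
      ∑ i, inner ℂ (P i) (∑ j, ch (c * i * j) • Q j) := by
    refine Finset.sum_congr rfl fun i _ => ?_
    rw [inner_sum]
    refine Finset.sum_congr rfl fun j _ => ?_
    rw [inner_smul_right]
  rw [h1]
  refine (norm_sum_inner_le _ _ _).trans ?_
  rw [parseval_dilate hc, Real.sqrt_mul (by positivity)]
  apply le_of_eq
  ring

end Vec

end Pool.Agent.Lib.MP_cdaa24_an
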