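import Pool.Agent.Lib.MP_cdaa24_an.DirectSum

/-!
The lower bound: no decomposition.
-/

open Finset
open scoped ComplexConjugate CStarMatrix BoundedContinuousFunction ENNReal

namespace Pool.Agent.Lib.MP_cdaa24_an

section Chi

variable {p : ℕ} [hp : Fact p.Prime]

/-- The character `m ↦ ch (i m)` as a bounded sequence. -/
noncomputable def chi (i : ZMod p) : ℕ →ᵇ ℂ :=
  BoundedContinuousFunction.ofNormedAddCommGroupDiscrete (fun m : ℕ => ch (i * (m : ZMod p))) 1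
    (fun _ => (norm_ch _).le)

lemma chi_apply (i : ZMod p) (m : ℕ) : chi i m = ch (i * (m : ZMod p)) := rfl

lemma hat_chi (i j : ZMod p) : hat i (chi j) = if i = j then 1 else 0 := by
  have hp0 : (p : ℂ) ≠ 0 := by exact_mod_cast hp.out.ne_zero
  rw [hat_apply]
  have h1 : ∀ t : ZMod p, ch (-i * t) * chi j t.val = ch (t * (j - i)) := by
    intro t
    rw [chi_apply, ZMod.natCast_zmod_val, ← ch_add]
    congr 1
    ring
  simp_rw [h1]
  rw [sum_ch]
  by_cases h : i = j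
  · subst h; simp [hp0]
  · have : ¬ (j - i = 0) := fun h' => h (sub_eq_zero.1 h').symm
    simp [h, this]

/-- Fibers of `k ↦ c * k ^ 2`. -/
lemma card_fiber_le {c : ZMod p} (hc : c ≠ 0) (u : ZMod p) :
    (Finset.univ.filter fun k : ZMod p => c * k ^ 2 = u).card ≤ 2 := by
  classical
  by_cases h : (Finset.univ.filter fun k : ZMod p => c * k ^ 2 = u).Nonempty
  · obtain ⟨k0, hk0⟩ := h
    rw [Finset.mem_filter] at hk0
    have hsub : (Finset.univ.filter fun k : ZMod p => c * k ^ 2 = u) ⊆ {k0, -k0} := by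
      intro k hk
      rw [Finset.mem_filter] at hk
      have h1 : k ^ 2 = k0 ^ 2 := mul_left_cancel₀ hc (hk.2.trans hk0.2.symm)
      rw [Finset.mem_insert, Finset.mem_singleton]
      exact sq_eq_sq_iff_eq_or_eq_neg.1 h1
    exact (Finset.card_le_card hsub).trans Finset.card_le_two
  · rw [Finset.not_nonempty_iff_eq_empty.1 h]
    simp

/-- The large sieve type bound for quadratic phases. -/
lemma quad_bound {c : ZMod p} (hc : c ≠ 0) (d : ZMod p → ℂ) :
    ∑ j : ZMod p, ‖∑ k, ch (j * (c * k ^ 2)) * d k‖ ^ 2 ≤ 2 * p * ∑ k, ‖d k‖ ^ 2 := by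
  classical
  have h1 : ∀ j : ZMod p, ∑ k, ch (j * (c * k ^ 2)) * d k =
      ∑ u, ch (j * u) • ∑ k with c * k ^ 2 = u, d k := by
    intro j
    rw [← Finset.sum_fiberwise (s := Finset.univ) (g := fun k : ZMod p => c * k ^ 2)]
    refine Finset.sum_congr rfl fun u _ => ?_
    rw [smul_eq_mul, Finset.mul_sum]
    refine Finset.sum_congr rfl fun k hk => ?_
    rw [Finset.mem_filter] at hk
    rw [hk.2]
  simp_rw [h1]
  rw [parseval]
  have h2 : ∀ u : ZMod p, ‖∑ k with c * k ^ 2 = u, d k‖ ^ 2 ≤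
      2 * ∑ k with c * k ^ 2 = u, ‖d k‖ ^ 2 := by
    intro u
    calc ‖∑ k with c * k ^ 2 = u, d k‖ ^ 2 ≤ (∑ k with c * k ^ 2 = u, ‖d k‖) ^ 2 := by
          gcongr
          exact norm_sum_le _ _
      _ ≤ ((Finset.univ.filter fun k : ZMod p => c * k ^ 2 = u).card : ℝ) *
          ∑ k with c * k ^ 2 = u, ‖d k‖ ^ 2 := sq_sum_le_card_mul_sum_sq
      _ ≤ _ := by
          gcongr
          exact_mod_cast card_fiber_le hc u
  calc (p : ℝ) * ∑ u, ‖∑ k with c * k ^ 2 = u, d k‖ ^ 2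
      ≤ p * ∑ u, 2 * ∑ k with c * k ^ 2 = u, ‖d k‖ ^ 2 := by
        gcongr with u
        exact h2 u
    _ = 2 * p * ∑ k, ‖d k‖ ^ 2 := by
        rw [← Finset.mul_sum, Finset.sum_fiberwise]
        ring

/-- Row bound for the first test matrix. -/
lemma test_bound (h3 : (3 : ZMod p) ≠ 0) (c : ZMod p → ℂ) (t : ℕ) :
    ∑ j : ZMod p, ‖∑ k, c k * (conj (th k (j - k)) • chi (j - k)) t‖ ^ 2 ≤
      (√2 * √p) ^ 2 * ∑ k, ‖c k‖ ^ 2 := by
  have hc : (-3 : ZMod p) ≠ 0 := neg_ne_zero.2 h3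
  have h := quad_bound hc (fun k => ch (2 * k ^ 3 - k * (t : ZMod p)) * c k)
  have e : (√2 * √p) ^ 2 = 2 * (p : ℝ) := by
    rw [mul_pow, Real.sq_sqrt (by norm_num), Real.sq_sqrt (by positivity)]
  rw [e]
  simp only [norm_mul, norm_ch, one_mul] at h
  refine le_trans (le_of_eq ?_) h
  refine Finset.sum_congr rfl fun j _ => ?_
  have h1 : ∑ k, c k * (conj (th k (j - k)) • chi (j - k)) t =
      ch (j * (t : ZMod p)) * ∑ k, ch (j * (-3 * k ^ 2)) * (ch (2 * k ^ 3 - k * (t : ZMod p)) * c k) := by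
    rw [Finset.mul_sum]
    refine Finset.sum_congr rfl fun k _ => ?_
    rw [BoundedContinuousFunction.smul_apply, chi_apply, smul_eq_mul, th, conj_ch]
    have : ch (j * (t : ZMod p)) * (ch (j * (-3 * k ^ 2)) * (ch (2 * k ^ 3 - k * (t : ZMod p)) * c k)) =
      c k * (ch (j * (t : ZMod p)) * (ch (j * (-3 * k ^ 2)) * ch (2 * k ^ 3 - k * (t : ZMod p)))) := by ring
    rw [this, ← ch_add, ← ch_add, ← ch_add]
    congr 2
    ring
  rw [h1, norm_mul, norm_ch, one_mul]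

/-- Row bound for the second test matrix. -/
lemma test_bound' (h3 : (3 : ZMod p) ≠ 0) (c : ZMod p → ℂ) (t : ℕ) :
    ∑ j : ZMod p, ‖∑ k, c k * (conj (th (j - k) k) • chi (j - k)) t‖ ^ 2 ≤
      (√2 * √p) ^ 2 * ∑ k, ‖c k‖ ^ 2 := by
  have h := quad_bound h3 (fun k => ch (-(2 * k ^ 3) - k * (t : ZMod p)) * c k)
  have e : (√2 * √p) ^ 2 = 2 * (p : ℝ) := by
    rw [mul_pow, Real.sq_sqrt (by norm_num), Real.sq_sqrt (by positivity)]
  rw [e]
  simp only [norm_mul, norm_ch, one_mul] at h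
  refine le_trans (le_of_eq ?_) h
  refine Finset.sum_congr rfl fun j _ => ?_
  have h1 : ∑ k, c k * (conj (th (j - k) k) • chi (j - k)) t =
      ch (j * (t : ZMod p) - j ^ 3) * ∑ k, ch (j * (3 * k ^ 2)) * (ch (-(2 * k ^ 3) - k * (t : ZMod p)) * c k) := by
    rw [Finset.mul_sum]
    refine Finset.sum_congr rfl fun k _ => ?_
    rw [BoundedContinuousFunction.smul_apply, chi_apply, smul_eq_mul, th, conj_ch]
    have : ch (j * (t : ZMod p) - j ^ 3) * (ch (j * (3 * k ^ 2)) * (ch (-(2 * k ^ 3) - k * (t : ZMod p)) * c k)) =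
      c k * (ch (j * (t : ZMod p) - j ^ 3) * (ch (j * (3 * k ^ 2)) * ch (-(2 * k ^ 3) - k * (t : ZMod p)))) := by ring
    rw [this, ← ch_add, ← ch_add, ← ch_add]
    congr 2
    ring
  rw [h1, norm_mul, norm_ch, one_mul]

/-- Row bound for the diagonal matrix of characters. -/
lemma diag_bound (c : ZMod p → ℂ) (t : ℕ) :
    ∑ j : ZMod p, ‖∑ i, c i * ((if i = j then chi i else 0 : ℕ →ᵇ ℂ)) t‖ ^ 2 ≤
      (1 : ℝ) ^ 2 * ∑ k, ‖c k‖ ^ 2 := by
  classical
  rw [one_pow, one_mul]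
  apply le_of_eq
  refine Finset.sum_congr rfl fun j _ => ?_
  rw [Finset.sum_eq_single j]
  · rw [if_pos rfl, norm_mul, chi_apply, norm_ch, mul_one]
  · intro b _ hb
    rw [if_neg hb]
    simp
  · simp

end Chi

end Pool.Agent.Lib.MP_cdaa24_an
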