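import Mathlib

/-!
Norms of matrices over the commutative C*-algebra of bounded sequences.
-/

open Finset
open scoped ComplexConjugate CStarMatrix BoundedContinuousFunction

namespace Pool.Agent.Lib.MP_cdaa24_an

variable [PartialOrder (ℕ →ᵇ ℂ)] [StarOrderedRing (ℕ →ᵇ ℂ)]

lemma bcf_inner_self_apply (x : ℕ →ᵇ ℂ) (t : ℕ) :
    (inner (ℕ →ᵇ ℂ) x x : ℕ →ᵇ ℂ) t = ((‖x t‖ ^ 2 : ℝ) : ℂ) := by
  rw [WithCStarModule.inner_def]
  change x t * conj (x t) = _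
  rw [Complex.mul_conj, Complex.normSq_eq_norm_sq]

variable {ι : Type*} [Fintype ι]

lemma sum_inner_apply (v : WithCStarModule (ℕ →ᵇ ℂ) (ι → (ℕ →ᵇ ℂ))) (t : ℕ) :
    (∑ i, inner (ℕ →ᵇ ℂ) (v i) (v i) : ℕ →ᵇ ℂ) t = ((∑ i, ‖v i t‖ ^ 2 : ℝ) : ℂ) := by
  rw [BoundedContinuousFunction.coe_sum, Finset.sum_apply]
  push_cast
  refine Finset.sum_congr rfl fun i _ => ?_
  rw [bcf_inner_self_apply]
  push_cast
  rfl

/-- Pointwise lower bound for the norm of the module. -/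
lemma sum_sq_le_norm_sq (v : WithCStarModule (ℕ →ᵇ ℂ) (ι → (ℕ →ᵇ ℂ))) (t : ℕ) :
    ∑ i, ‖v i t‖ ^ 2 ≤ ‖v‖ ^ 2 := by
  rw [WithCStarModule.pi_norm_sq]
  have h := BoundedContinuousFunction.norm_coe_le_norm
    (∑ i, inner (ℕ →ᵇ ℂ) (v i) (v i) : ℕ →ᵇ ℂ) t
  rw [sum_inner_apply, Complex.norm_real, Real.norm_eq_abs, abs_of_nonneg (by positivity)] at h
  exact h

/-- Pointwise upper bound for the norm of the module. -/
lemma norm_sq_le_of_forall {v : WithCStarModule (ℕ →ᵇ ℂ) (ι → (ℕ →ᵇ ℂ))} {C : ℝ} (hC : 0 ≤ C)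
    (h : ∀ t, ∑ i, ‖v i t‖ ^ 2 ≤ C) : ‖v‖ ^ 2 ≤ C := by
  rw [WithCStarModule.pi_norm_sq, BoundedContinuousFunction.norm_le hC]
  intro t
  rw [sum_inner_apply, Complex.norm_real, Real.norm_eq_abs, abs_of_nonneg (by positivity)]
  exact h t

variable {κ : Type*} [Fintype κ]

/-- Row bound: evaluation at a point does not increase the norm of a matrix. -/
lemma eval_row (M : CStarMatrix ι κ (ℕ →ᵇ ℂ)) (c : ι → ℂ) (t : ℕ) :
    ∑ j, ‖∑ i, c i * (M i j) t‖ ^ 2 ≤ ‖M‖ ^ 2 * ∑ i, ‖c i‖ ^ 2 := by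
  set v : WithCStarModule (ℕ →ᵇ ℂ) (ι → (ℕ →ᵇ ℂ)) :=
    (WithCStarModule.equiv _ _).symm (fun i => BoundedContinuousFunction.const ℕ (c i)) with hv
  have h1 : ‖v‖ ^ 2 ≤ ∑ i, ‖c i‖ ^ 2 := by
    apply norm_sq_le_of_forall (by positivity)
    intro t
    apply le_of_eq
    rfl
  have h2 := sum_sq_le_norm_sq (CStarMatrix.toCLM M v) t
  have h3 : ∀ j, (CStarMatrix.toCLM M v) j t = ∑ i, c i * (M i j) t := by
    intro j
    rw [CStarMatrix.toCLM_apply_eq_sum]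
    change (∑ i, v i * M i j : ℕ →ᵇ ℂ) t = _
    rw [BoundedContinuousFunction.coe_sum, Finset.sum_apply]
    rfl
  simp_rw [h3] at h2
  have h4 : ‖CStarMatrix.toCLM M v‖ ≤ ‖M‖ * ‖v‖ := by
    rw [CStarMatrix.norm_def]
    exact (CStarMatrix.toCLM M).le_opNorm v
  calc ∑ j, ‖∑ i, c i * (M i j) t‖ ^ 2 ≤ ‖CStarMatrix.toCLM M v‖ ^ 2 := h2
    _ ≤ (‖M‖ * ‖v‖) ^ 2 := by gcongr
    _ = ‖M‖ ^ 2 * ‖v‖ ^ 2 := by ring
    _ ≤ _ := by gcongr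

/-- Upper bound for the norm of a matrix from pointwise bounds. -/
lemma norm_le_of_eval {M : CStarMatrix ι κ (ℕ →ᵇ ℂ)} {C : ℝ} (hC : 0 ≤ C)
    (h : ∀ (c : ι → ℂ) (t : ℕ), ∑ j, ‖∑ i, c i * (M i j) t‖ ^ 2 ≤ C ^ 2 * ∑ i, ‖c i‖ ^ 2) :
    ‖M‖ ≤ C := by
  rw [CStarMatrix.norm_def]
  apply ContinuousLinearMap.opNorm_le_bound _ hC
  intro v
  apply le_of_sq_le_sq _ (by positivity)
  rw [mul_pow]
  apply norm_sq_le_of_forall (by positivity)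
  intro t
  have h3 : ∀ j, (CStarMatrix.toCLM M v) j t = ∑ i, v i t * (M i j) t := by
    intro j
    rw [CStarMatrix.toCLM_apply_eq_sum]
    change (∑ i, v i * M i j : ℕ →ᵇ ℂ) t = _
    rw [BoundedContinuousFunction.coe_sum, Finset.sum_apply]
    rfl
  simp_rw [h3]
  calc _ ≤ C ^ 2 * ∑ i, ‖v i t‖ ^ 2 := h (fun i => v i t) t
    _ ≤ C ^ 2 * ‖v‖ ^ 2 := by
      gcongr
      exact sum_sq_le_norm_sq v t

/-- Column bound, for square matrices. -/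
lemma eval_col (M : CStarMatrix ι ι (ℕ →ᵇ ℂ)) (c : ι → ℂ) (t : ℕ) :
    ∑ i, ‖∑ j, (M i j) t * c j‖ ^ 2 ≤ ‖M‖ ^ 2 * ∑ j, ‖c j‖ ^ 2 := by
  have h := eval_row (star M) (fun j => conj (c j)) t
  have h1 : ∀ j i, (star M) j i t = conj ((M i j) t) := by
    intro j i
    rw [CStarMatrix.star_apply]
    rfl
  simp_rw [h1] at h
  rw [norm_star] at h
  have h2 : ∀ i, ‖∑ j, conj (c j) * conj ((M i j) t)‖ = ‖∑ j, (M i j) t * c j‖ := by
    intro i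
    rw [← Complex.norm_conj, map_sum]
    congr 1
    refine Finset.sum_congr rfl fun j _ => ?_
    rw [map_mul, Complex.conj_conj, Complex.conj_conj, mul_comm]
  simp_rw [h2, Complex.norm_conj] at h
  exact h

end Pool.Agent.Lib.MP_cdaa24_an
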