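import Pool.Agent.Lib.MP_cdaa24_an.Core
import Pool.Agent.Lib.MP_cdaa24_an.Mat

/-!
Fourier coefficient operators and the jointly bounded estimate for one block.
-/

open Finset
open scoped ComplexConjugate CStarMatrix BoundedContinuousFunction Kronecker

namespace Pool.Agent.Lib.MP_cdaa24_an

variable {p : ℕ} [hp : Fact p.Prime]

/-- Fourier coefficient of the restriction of a bounded sequence to its first `p` terms. -/
noncomputable def hat (i : ZMod p) : (ℕ →ᵇ ℂ) →ₗ[ℂ] ℂ where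
  toFun x := (p : ℂ)⁻¹ * ∑ t : ZMod p, ch (-i * t) * x t.val
  map_add' x y := by
    simp only [BoundedContinuousFunction.coe_add, Pi.add_apply, mul_add, Finset.sum_add_distrib]
  map_smul' c x := by
    simp only [BoundedContinuousFunction.coe_smul, smul_eq_mul, RingHom.id_apply]
    have : ∑ t : ZMod p, ch (-i * t) * (c * x t.val) = c * ∑ t : ZMod p, ch (-i * t) * x t.val := by
      rw [Finset.mul_sum]
      refine Finset.sum_congr rfl fun t _ => ?_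
      ring
    rw [this]
    ring

lemma hat_apply (i : ZMod p) (x : ℕ →ᵇ ℂ) :
    hat i x = (p : ℂ)⁻¹ * ∑ t : ZMod p, ch (-i * t) * x t.val := rfl

/-- Scalar Parseval for the Fourier coefficients of a linear combination. -/
lemma sum_norm_sq_hat (g : ZMod p → ℂ) :
    ∑ i : ZMod p, ‖(p : ℂ)⁻¹ * ∑ t : ZMod p, ch (-i * t) * g t‖ ^ 2 =
      (p : ℝ)⁻¹ * ∑ t, ‖g t‖ ^ 2 := by
  have hp0 : (p : ℝ) ≠ 0 := by exact_mod_cast hp.out.ne_zero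
  have h := parseval (p := p) g
  simp only [smul_eq_mul] at h
  have h1 : ∑ i : ZMod p, ‖(p : ℂ)⁻¹ * ∑ t : ZMod p, ch (-i * t) * g t‖ ^ 2 =
      ((p : ℝ)⁻¹) ^ 2 * ∑ i : ZMod p, ‖∑ t : ZMod p, ch (-i * t) * g t‖ ^ 2 := by
    rw [Finset.mul_sum]
    refine Finset.sum_congr rfl fun i _ => ?_
    rw [norm_mul, mul_pow, norm_inv, Complex.norm_natCast]
  have h2 : ∑ i : ZMod p, ‖∑ t : ZMod p, ch (-i * t) * g t‖ ^ 2 =
      ∑ u : ZMod p, ‖∑ t : ZMod p, ch (u * t) * g t‖ ^ 2 :=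
    Fintype.sum_equiv (Equiv.neg _) _ _ (fun i => rfl)
  rw [h1, h2, h]
  field_simp

section Bessel

variable [PartialOrder (ℕ →ᵇ ℂ)] [StarOrderedRing (ℕ →ᵇ ℂ)]

variable {ι : Type*} [Fintype ι]

lemma bessel_col (a : CStarMatrix ι ι (ℕ →ᵇ ℂ)) (c : ι → ℂ) :
    ∑ i : ZMod p, ∑ k, ‖∑ l, hat i (a k l) * c l‖ ^ 2 ≤ ‖a‖ ^ 2 * ∑ l, ‖c l‖ ^ 2 := by
  have hp0 : (0 : ℝ) < p := by exact_mod_cast hp.out.pos
  rw [Finset.sum_comm]
  have h1 : ∀ k, ∑ i : ZMod p, ‖∑ l, hat i (a k l) * c l‖ ^ 2 =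
      (p : ℝ)⁻¹ * ∑ t : ZMod p, ‖∑ l, (a k l) t.val * c l‖ ^ 2 := by
    intro k
    rw [← sum_norm_sq_hat]
    refine Finset.sum_congr rfl fun i _ => ?_
    congr 2
    simp only [hat_apply]
    rw [Finset.mul_sum]
    simp_rw [Finset.mul_sum, Finset.sum_mul]
    rw [Finset.sum_comm]
    refine Finset.sum_congr rfl fun t _ => Finset.sum_congr rfl fun l _ => ?_
    ring
  simp_rw [h1]
  rw [← Finset.mul_sum, Finset.sum_comm]
  calc (p : ℝ)⁻¹ * ∑ t : ZMod p, ∑ k, ‖∑ l, (a k l) t.val * c l‖ ^ 2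
      ≤ (p : ℝ)⁻¹ * ∑ t : ZMod p, ‖a‖ ^ 2 * ∑ l, ‖c l‖ ^ 2 := by
        gcongr with t
        exact eval_col a c t.val
    _ = ‖a‖ ^ 2 * ∑ l, ‖c l‖ ^ 2 := by
        rw [Finset.sum_const, Finset.card_univ, ZMod.card, nsmul_eq_mul]
        field_simp

lemma bessel_row (a : CStarMatrix ι ι (ℕ →ᵇ ℂ)) (c : ι → ℂ) :
    ∑ i : ZMod p, ∑ k, ‖∑ l, c l * hat i (a l k)‖ ^ 2 ≤ ‖a‖ ^ 2 * ∑ l, ‖c l‖ ^ 2 := by
  have hp0 : (0 : ℝ) < p := by exact_mod_cast hp.out.pos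
  rw [Finset.sum_comm]
  have h1 : ∀ k, ∑ i : ZMod p, ‖∑ l, c l * hat i (a l k)‖ ^ 2 =
      (p : ℝ)⁻¹ * ∑ t : ZMod p, ‖∑ l, c l * (a l k) t.val‖ ^ 2 := by
    intro k
    rw [← sum_norm_sq_hat]
    refine Finset.sum_congr rfl fun i _ => ?_
    congr 2
    simp only [hat_apply]
    rw [Finset.mul_sum]
    simp_rw [Finset.mul_sum]
    rw [Finset.sum_comm]
    refine Finset.sum_congr rfl fun t _ => Finset.sum_congr rfl fun l _ => ?_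
    ring
  simp_rw [h1]
  rw [← Finset.mul_sum, Finset.sum_comm]
  calc (p : ℝ)⁻¹ * ∑ t : ZMod p, ∑ k, ‖∑ l, c l * (a l k) t.val‖ ^ 2
      ≤ (p : ℝ)⁻¹ * ∑ t : ZMod p, ‖a‖ ^ 2 * ∑ l, ‖c l‖ ^ 2 := by
        gcongr with t
        exact eval_row a c t.val
    _ = ‖a‖ ^ 2 * ∑ l, ‖c l‖ ^ 2 := by
        rw [Finset.sum_const, Finset.card_univ, ZMod.card, nsmul_eq_mul]
        field_simp

variable {κ : Type*} [Fintype κ] [DecidableEq ι] [DecidableEq κ]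

/-- The operator `M ⊗ 1`. -/
noncomputable def opL (κ : Type*) [Fintype κ] [DecidableEq κ] (M : Matrix ι ι ℂ) :
    EuclideanSpace ℂ (ι × κ) →L[ℂ] EuclideanSpace ℂ (ι × κ) :=
  Matrix.toEuclideanCLM (n := ι × κ) (𝕜 := ℂ) (M ⊗ₖ (1 : Matrix κ κ ℂ))

/-- The operator `1 ⊗ M`. -/
noncomputable def opR (ι : Type*) [Fintype ι] [DecidableEq ι] (M : Matrix κ κ ℂ) :
    EuclideanSpace ℂ (ι × κ) →L[ℂ] EuclideanSpace ℂ (ι × κ) :=
  Matrix.toEuclideanCLM (n := ι × κ) (𝕜 := ℂ) ((1 : Matrix ι ι ℂ) ⊗ₖ M)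

omit [PartialOrder (ℕ →ᵇ ℂ)] [StarOrderedRing (ℕ →ᵇ ℂ)] in
lemma opL_apply (M : Matrix ι ι ℂ) (ξ : EuclideanSpace ℂ (ι × κ)) (q : ι × κ) :
    opL κ M ξ q = ∑ l, M q.1 l * ξ (l, q.2) := by
  unfold opL
  rw [Matrix.ofLp_toEuclideanCLM]
  simp only [Matrix.mulVec, dotProduct, Matrix.kroneckerMap_apply]
  rw [Fintype.sum_prod_type]
  refine Finset.sum_congr rfl fun l _ => ?_
  rw [Finset.sum_eq_single q.2]
  · simp
  · intro b _ hb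
    simp [hb.symm]
  · simp

omit [PartialOrder (ℕ →ᵇ ℂ)] [StarOrderedRing (ℕ →ᵇ ℂ)] in
lemma opR_apply (M : Matrix κ κ ℂ) (ξ : EuclideanSpace ℂ (ι × κ)) (q : ι × κ) :
    opR ι M ξ q = ∑ l, M q.2 l * ξ (q.1, l) := by
  unfold opR
  rw [Matrix.ofLp_toEuclideanCLM]
  simp only [Matrix.mulVec, dotProduct, Matrix.kroneckerMap_apply]
  rw [Fintype.sum_prod_type, Finset.sum_eq_single q.1]
  · simp
  · intro b _ hb
    apply Finset.sum_eq_zero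
    intro l _
    simp [hb.symm]
  · simp

omit [PartialOrder (ℕ →ᵇ ℂ)] [StarOrderedRing (ℕ →ᵇ ℂ)] in
lemma adjoint_opL (M : Matrix ι ι ℂ) :
    ContinuousLinearMap.adjoint (opL κ M) = opL κ (Matrix.conjTranspose M) := by
  unfold opL
  rw [← ContinuousLinearMap.star_eq_adjoint, ← map_star, Matrix.star_eq_conjTranspose,
    Matrix.conjTranspose_kronecker, Matrix.conjTranspose_one]

omit [PartialOrder (ℕ →ᵇ ℂ)] [StarOrderedRing (ℕ →ᵇ ℂ)] in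
lemma adjoint_opR (M : Matrix κ κ ℂ) :
    ContinuousLinearMap.adjoint (opR ι M) = opR ι (Matrix.conjTranspose M) := by
  unfold opR
  rw [← ContinuousLinearMap.star_eq_adjoint, ← map_star, Matrix.star_eq_conjTranspose,
    Matrix.conjTranspose_kronecker, Matrix.conjTranspose_one]

omit [PartialOrder (ℕ →ᵇ ℂ)] [StarOrderedRing (ℕ →ᵇ ℂ)] in
lemma opL_opR_comm (M : Matrix ι ι ℂ) (N : Matrix κ κ ℂ) (ξ : EuclideanSpace ℂ (ι × κ)) :
    opL κ M (opR ι N ξ) = opR ι N (opL κ M ξ) := by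
  ext q
  rw [opL_apply, opR_apply]
  simp_rw [opR_apply, opL_apply, Finset.mul_sum]
  rw [Finset.sum_comm]
  refine Finset.sum_congr rfl fun l _ => Finset.sum_congr rfl fun l' _ => ?_
  ring

lemma alpha_bound (a : CStarMatrix ι ι (ℕ →ᵇ ℂ)) (ξ : EuclideanSpace ℂ (ι × κ)) :
    ∑ i : ZMod p, ‖opL κ (Matrix.of fun k l => hat i (a k l)) ξ‖ ^ 2 ≤ ‖a‖ ^ 2 * ‖ξ‖ ^ 2 := by
  have h1 : ∀ i : ZMod p, ‖opL κ (Matrix.of fun k l => hat i (a k l)) ξ‖ ^ 2 =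
      ∑ k', ∑ k, ‖∑ l, hat i (a k l) * ξ (l, k')‖ ^ 2 := by
    intro i
    rw [EuclideanSpace.norm_sq_eq, Fintype.sum_prod_type, Finset.sum_comm]
    refine Finset.sum_congr rfl fun k' _ => Finset.sum_congr rfl fun k _ => ?_
    rw [opL_apply]
    rfl
  simp_rw [h1]
  rw [Finset.sum_comm]
  calc _ ≤ ∑ k' : κ, ‖a‖ ^ 2 * ∑ l, ‖ξ (l, k')‖ ^ 2 :=
        Finset.sum_le_sum fun k' _ => bessel_col a (fun l => ξ (l, k'))
    _ = ‖a‖ ^ 2 * ‖ξ‖ ^ 2 := by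
        rw [← Finset.mul_sum, EuclideanSpace.norm_sq_eq, Fintype.sum_prod_type, Finset.sum_comm]

lemma alpha_bound' (a : CStarMatrix ι ι (ℕ →ᵇ ℂ)) (ξ : EuclideanSpace ℂ (ι × κ)) :
    ∑ i : ZMod p, ‖ContinuousLinearMap.adjoint (opL κ (Matrix.of fun k l => hat i (a k l))) ξ‖ ^ 2
      ≤ ‖a‖ ^ 2 * ‖ξ‖ ^ 2 := by
  have h1 : ∀ i : ZMod p,
      ‖ContinuousLinearMap.adjoint (opL κ (Matrix.of fun k l => hat i (a k l))) ξ‖ ^ 2 =
      ∑ k', ∑ k, ‖∑ l, conj (ξ (l, k')) * hat i (a l k)‖ ^ 2 := by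
    intro i
    rw [adjoint_opL, EuclideanSpace.norm_sq_eq, Fintype.sum_prod_type, Finset.sum_comm]
    refine Finset.sum_congr rfl fun k' _ => Finset.sum_congr rfl fun k _ => ?_
    rw [opL_apply, ← Complex.norm_conj, map_sum]
    congr 2
    refine Finset.sum_congr rfl fun l _ => ?_
    simp [Matrix.conjTranspose_apply, mul_comm]
  simp_rw [h1]
  rw [Finset.sum_comm]
  calc _ ≤ ∑ k' : κ, ‖a‖ ^ 2 * ∑ l, ‖conj (ξ (l, k'))‖ ^ 2 :=
        Finset.sum_le_sum fun k' _ => bessel_row a (fun l => conj (ξ (l, k')))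
    _ = ‖a‖ ^ 2 * ‖ξ‖ ^ 2 := by
        simp_rw [Complex.norm_conj]
        rw [← Finset.mul_sum, EuclideanSpace.norm_sq_eq, Fintype.sum_prod_type, Finset.sum_comm]

lemma beta_bound (b : CStarMatrix κ κ (ℕ →ᵇ ℂ)) (ξ : EuclideanSpace ℂ (ι × κ)) :
    ∑ i : ZMod p, ‖opR ι (Matrix.of fun k l => hat i (b k l)) ξ‖ ^ 2 ≤ ‖b‖ ^ 2 * ‖ξ‖ ^ 2 := by
  have h1 : ∀ i : ZMod p, ‖opR ι (Matrix.of fun k l => hat i (b k l)) ξ‖ ^ 2 =
      ∑ k', ∑ k, ‖∑ l, hat i (b k l) * ξ (k', l)‖ ^ 2 := by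
    intro i
    rw [EuclideanSpace.norm_sq_eq, Fintype.sum_prod_type]
    refine Finset.sum_congr rfl fun k' _ => Finset.sum_congr rfl fun k _ => ?_
    rw [opR_apply]
    rfl
  simp_rw [h1]
  rw [Finset.sum_comm]
  calc _ ≤ ∑ k' : ι, ‖b‖ ^ 2 * ∑ l, ‖ξ (k', l)‖ ^ 2 :=
        Finset.sum_le_sum fun k' _ => bessel_col b (fun l => ξ (k', l))
    _ = ‖b‖ ^ 2 * ‖ξ‖ ^ 2 := by
        rw [← Finset.mul_sum, EuclideanSpace.norm_sq_eq, Fintype.sum_prod_type]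

lemma beta_bound' (b : CStarMatrix κ κ (ℕ →ᵇ ℂ)) (ξ : EuclideanSpace ℂ (ι × κ)) :
    ∑ i : ZMod p, ‖ContinuousLinearMap.adjoint (opR ι (Matrix.of fun k l => hat i (b k l))) ξ‖ ^ 2
      ≤ ‖b‖ ^ 2 * ‖ξ‖ ^ 2 := by
  have h1 : ∀ i : ZMod p,
      ‖ContinuousLinearMap.adjoint (opR ι (Matrix.of fun k l => hat i (b k l))) ξ‖ ^ 2 =
      ∑ k', ∑ k, ‖∑ l, conj (ξ (k', l)) * hat i (b l k)‖ ^ 2 := by
    intro i
    rw [adjoint_opR, EuclideanSpace.norm_sq_eq, Fintype.sum_prod_type]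
    refine Finset.sum_congr rfl fun k' _ => Finset.sum_congr rfl fun k _ => ?_
    rw [opR_apply, ← Complex.norm_conj, map_sum]
    congr 2
    refine Finset.sum_congr rfl fun l _ => ?_
    simp [Matrix.conjTranspose_apply, mul_comm]
  simp_rw [h1]
  rw [Finset.sum_comm]
  calc _ ≤ ∑ k' : ι, ‖b‖ ^ 2 * ∑ l, ‖conj (ξ (k', l))‖ ^ 2 :=
        Finset.sum_le_sum fun k' _ => bessel_row b (fun l => conj (ξ (k', l)))
    _ = ‖b‖ ^ 2 * ‖ξ‖ ^ 2 := by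
        simp_rw [Complex.norm_conj]
        rw [← Finset.mul_sum, EuclideanSpace.norm_sq_eq, Fintype.sum_prod_type]

/-- The jointly bounded estimate for one block, in coordinates. -/
theorem block_jcb (h6 : (6 : ZMod p) ≠ 0) (a : CStarMatrix ι ι (ℕ →ᵇ ℂ))
    (b : CStarMatrix κ κ (ℕ →ᵇ ℂ)) (x : ZMod p → ι × κ → ℂ) :
    ∑ P : ι × κ, ‖∑ Q : ι × κ, ∑ s, ∑ i, th i (s - i) *
        (hat i (a P.1 Q.1) * hat (s - i) (b P.2 Q.2)) * x s Q‖ ^ 2 ≤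
      (1 + √p) * (‖a‖ ^ 2 * ‖b‖ ^ 2) * ∑ Q : ι × κ, ∑ s, ‖x s Q‖ ^ 2 := by
  set α : ZMod p → EuclideanSpace ℂ (ι × κ) →L[ℂ] EuclideanSpace ℂ (ι × κ) := fun i =>
    opL κ (Matrix.of fun k l => hat i (a k l)) with hα
  set β : ZMod p → EuclideanSpace ℂ (ι × κ) →L[ℂ] EuclideanSpace ℂ (ι × κ) := fun i =>
    opR ι (Matrix.of fun k l => hat i (b k l)) with hβ
  set X : ZMod p → EuclideanSpace ℂ (ι × κ) := fun s => WithLp.toLp 2 (x s) with hX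
  have h := core_dual h6 α β (fun i j v => opL_opR_comm _ _ v)
    (fun i j v => by simp only [hα, hβ]; rw [adjoint_opL]; exact opL_opR_comm _ _ v)
    (sq_nonneg ‖a‖) (sq_nonneg ‖b‖) (fun ξ => alpha_bound a ξ) (fun ξ => alpha_bound' a ξ)
    (fun ξ => beta_bound b ξ) (fun ξ => beta_bound' b ξ) X
  have hXn : ∑ s, ‖X s‖ ^ 2 = ∑ Q : ι × κ, ∑ s, ‖x s Q‖ ^ 2 := by
    rw [Finset.sum_comm]
    refine Finset.sum_congr rfl fun s _ => ?_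
    rw [EuclideanSpace.norm_sq_eq]
  rw [hXn, EuclideanSpace.norm_sq_eq] at h
  refine le_trans (le_of_eq ?_) h
  refine Finset.sum_congr rfl fun P _ => ?_
  congr 2
  rw [WithLp.ofLp_sum, Finset.sum_apply, Finset.sum_comm]
  refine Finset.sum_congr rfl fun s _ => ?_
  rw [WithLp.ofLp_sum, Finset.sum_apply, Finset.sum_comm]
  refine Finset.sum_congr rfl fun i _ => ?_
  rw [WithLp.ofLp_smul, Pi.smul_apply, smul_eq_mul]
  simp only [hα, hβ]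
  rw [opL_apply]
  simp_rw [opR_apply]
  simp only [Matrix.of_apply, hX]
  rw [Fintype.sum_prod_type]
  rw [Finset.mul_sum]
  refine Finset.sum_congr rfl fun l _ => ?_
  rw [Finset.mul_sum, Finset.mul_sum]
  refine Finset.sum_congr rfl fun l' _ => ?_
  ring

end Bessel

end Pool.Agent.Lib.MP_cdaa24_an
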